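import Pool.Agent.T9h14.QD.Power

/-!
# Sums of tensors of cross forms: quaternionic determinants
-/

set_option autoImplicit false

namespace Pool.Agent.T9h14.QD

open Finset Pool.Agent.Y195.HF Pool.Agent.W666.GB Pool.Agent.W669.HD
open scoped Quaternion

variable {n : ℕ}

/-- bilinear elements -/
noncomputable def W (s t : Bool) (φ : Fin n → Fin n → ℂ) : Zc (I2 n → ℂ) :=
  ∑ i, ∑ j, φ i j • bv (th n s (i, false)) (th n t (j, true))

lemma W_add (s t : Bool) (φ ψ : Fin n → Fin n → ℂ) :
    W s t (fun i j => φ i j + ψ i j) = W s t φ + W s t ψ := by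
  unfold W
  simp only [add_smul, sum_add_distrib]

lemma W_smul (s t : Bool) (z : ℂ) (φ : Fin n → Fin n → ℂ) :
    W s t (fun i j => z * φ i j) = z • W s t φ := by
  unfold W
  simp only [mul_smul, smul_sum]

lemma W_sum {κ : Type} [Fintype κ] (s t : Bool) (φ : κ → Fin n → Fin n → ℂ) :
    W s t (fun i j => ∑ k, φ k i j) = ∑ k, W s t (φ k) := by
  unfold W
  simp only [sum_smul]
  rw [Finset.sum_comm]
  conv_rhs => rw [Finset.sum_comm]
  rw [Finset.sum_comm]
  refine sum_congr rfl fun i _ => ?_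
  rw [Finset.sum_comm]

/-- matrices which pair the two classes -/
def Cross (A : Fin n × Bool → Fin n × Bool → ℝ) : Prop := ∀ x y, x.2 = y.2 → A x y = 0

/-- the block -/
def blk (A : Fin n × Bool → Fin n × Bool → ℝ) (i j : Fin n) : ℂ := (A (i, false) (j, true) : ℂ)

lemma ff_cross {A : Fin n × Bool → Fin n × Bool → ℝ} (hA : Cross A) (s t : Bool) :
    ff s t (cm A) = W s t (blk A) -
      W t s (fun i j => (A (j, true) (i, false) : ℂ)) := by
  unfold ff W blk cm
  simp only [Fintype.sum_prod_type, Fintype.sum_bool]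
  have h0 : ∀ i j, A (i, false) (j, false) = 0 := fun i j => hA _ _ rfl
  have h1 : ∀ i j, A (i, true) (j, true) = 0 := fun i j => hA _ _ rfl
  simp only [h0, h1, Complex.ofReal_zero, zero_smul, add_zero, zero_add]
  rw [sum_add_distrib, add_comm, sub_eq_add_neg]
  congr 1
  rw [Finset.sum_comm, ← sum_neg_distrib]
  refine sum_congr rfl fun j _ => ?_
  rw [← sum_neg_distrib]
  refine sum_congr rfl fun i _ => ?_
  rw [bv_swap, smul_neg]

lemma ff_skew {A : Fin n × Bool → Fin n × Bool → ℝ} (hA : Cross A)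
    (hs : ∀ i j, A j i = - A i j) (s t : Bool) :
    ff s t (cm A) = W s t (blk A) + W t s (blk A) := by
  rw [ff_cross hA]
  have h : (fun i j => (A (j, true) (i, false) : ℂ)) = fun i j => (-1) * blk A i j := by
    funext i j
    rw [hs (i, false) (j, true)]
    unfold blk
    push_cast
    ring
  rw [h, W_smul, neg_smul, one_smul, sub_neg_eq_add]

lemma ff_symm {A : Fin n × Bool → Fin n × Bool → ℝ} (hA : Cross A)
    (hs : ∀ i j, A j i = A i j) (s t : Bool) :
    ff s t (cm A) = W s t (blk A) - W t s (blk A) := by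
  rw [ff_cross hA]
  have h : (fun i j => (A (j, true) (i, false) : ℂ)) = blk A := by
    funext i j
    rw [hs (i, false) (j, true)]
    rfl
  rw [h]

section elem

variable {κ l : Type} [Fintype κ] [Fintype l]

/-- the quaternionic matrix -/
noncomputable def qm (A : κ → Fin n × Bool → Fin n × Bool → ℝ)
    (H : l → Fin n × Bool → Fin n × Bool → ℝ) (p1 p2 p3 : κ → ℝ) (r : l → ℝ) :
    Matrix (Fin n) (Fin n) ℍ[ℝ] := Matrix.of fun i j =>
  ⟨∑ k, p1 k * A k (i, false) (j, true), ∑ k, p2 k * A k (i, false) (j, true),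
    ∑ a, r a * H a (i, false) (j, true), ∑ k, p3 k * A k (i, false) (j, true)⟩

/-- the vectors of the rows -/
noncomputable def ra (n : ℕ) (x : Fin n × Bool) : I2 n → ℂ := th n x.2 (x.1, false)

/-- the vectors of the columns -/
noncomputable def cb (n : ℕ) (x : Fin n × Bool) : I2 n → ℂ := th n x.2 (x.1, true)

lemma elem_eq (A : κ → Fin n × Bool → Fin n × Bool → ℝ)
    (H : l → Fin n × Bool → Fin n × Bool → ℝ) (hA : ∀ k, Cross (A k)) (hH : ∀ a, Cross (H a))
    (sA : ∀ k i j, A k j i = - A k i j) (sH : ∀ a i j, H a j i = H a i j)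
    (p1 p2 p3 : κ → ℝ) (r : l → ℝ) :
    ∑ k, vv (p1 k) (p2 k) (p3 k) (cm (A k)) + ∑ a, (r a : ℂ) • ff false true (cm (H a)) =
      ∑ x, ∑ y, (Matrix.of fun x y : Fin n × Bool =>
        ph (qm A H p1 p2 p3 r x.1 y.1) x.2 y.2) x y • bv (ra n x) (cb n y) := by
  have hR : ∑ x, ∑ y, (Matrix.of fun x y : Fin n × Bool =>
        ph (qm A H p1 p2 p3 r x.1 y.1) x.2 y.2) x y • bv (ra n x) (cb n y) =
      W false false (fun i j => ph (qm A H p1 p2 p3 r i j) false false) +
      W false true (fun i j => ph (qm A H p1 p2 p3 r i j) false true) +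
      (W true false (fun i j => ph (qm A H p1 p2 p3 r i j) true false) +
      W true true (fun i j => ph (qm A H p1 p2 p3 r i j) true true)) := by
    unfold W
    simp only [Fintype.sum_prod_type, Fintype.sum_bool, Matrix.of_apply, ra, cb,
      sum_add_distrib]
    abel
  rw [hR]
  have e00 : (fun i j => ph (qm A H p1 p2 p3 r i j) false false) =
      fun i j => ∑ k, ((p1 k : ℂ) + Complex.I * p2 k) * blk (A k) i j := by
    funext i j
    rw [ph_apply]
    apply Complex.ext
    · simp [qm, blk, Complex.add_re, Complex.mul_re]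
    · simp [qm, blk, Complex.add_im, Complex.mul_im]
  have e11 : (fun i j => ph (qm A H p1 p2 p3 r i j) true true) =
      fun i j => ∑ k, ((p1 k : ℂ) - Complex.I * p2 k) * blk (A k) i j := by
    funext i j
    rw [ph_apply]
    apply Complex.ext
    · simp [qm, blk, Complex.sub_re, Complex.mul_re]
    · simp [qm, blk, Complex.sub_im, Complex.mul_im]
  have e01 : (fun i j => ph (qm A H p1 p2 p3 r i j) false true) =
      fun i j => (∑ k, (Complex.I * p3 k) * blk (A k) i j) + ∑ a, (r a : ℂ) * blk (H a) i j := by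
    funext i j
    rw [ph_apply]
    apply Complex.ext
    · simp [qm, blk]
    · simp [qm, blk]
  have e10 : (fun i j => ph (qm A H p1 p2 p3 r i j) true false) =
      fun i j => (∑ k, (Complex.I * p3 k) * blk (A k) i j) +
        ∑ a, (-(r a : ℂ)) * blk (H a) i j := by
    funext i j
    rw [ph_apply]
    apply Complex.ext
    · simp [qm, blk]
    · simp [qm, blk]
  rw [e00, e11, e01, e10, W_sum, W_sum, W_add, W_add, W_sum, W_sum, W_sum, W_sum]
  simp only [W_smul]
  have hv : ∀ k, vv (p1 k) (p2 k) (p3 k) (cm (A k)) =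
      ((p1 k : ℂ) + Complex.I * p2 k) • W false false (blk (A k)) +
      ((p1 k : ℂ) - Complex.I * p2 k) • W true true (blk (A k)) +
      ((Complex.I * p3 k) • W false true (blk (A k)) +
        (Complex.I * p3 k) • W true false (blk (A k))) := by
    intro k
    rw [vv, uu, ff_skew (hA k) (sA k), ff_skew (hA k) (sA k), ff_skew (hA k) (sA k)]
    rw [← two_smul ℂ (W false false (blk (A k))), ← two_smul ℂ (W true true (blk (A k))),
      smul_smul, smul_smul, smul_add]
    congr 2
    · congr 1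
      ring
    · congr 1
      ring
  have hf : ∀ a, (r a : ℂ) • ff false true (cm (H a)) =
      (r a : ℂ) • W false true (blk (H a)) + (-(r a : ℂ)) • W true false (blk (H a)) := by
    intro a
    rw [ff_symm (hH a) (sH a), smul_sub, neg_smul, sub_eq_add_neg]
  simp only [hv, hf, sum_add_distrib]
  abel

/-- the alternating sum of the top power is nonnegative -/
lemma top_nonneg (A : κ → Fin n × Bool → Fin n × Bool → ℝ)
    (H : l → Fin n × Bool → Fin n × Bool → ℝ) (hA : ∀ k, Cross (A k)) (hH : ∀ a, Cross (H a))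
    (sA : ∀ k i j, A k j i = - A k i j) (sH : ∀ a i j, H a j i = H a i j)
    (p1 p2 p3 : κ → ℝ) (r : l → ℝ) :
    0 ≤ LR n ((∑ k, vv (p1 k) (p2 k) (p3 k) (cm (A k)) +
      ∑ a, (r a : ℂ) • ff false true (cm (H a))) ^ (2 * n)) := by
  rw [elem_eq A H hA hH sA sH]
  have hc : 2 * n = Fintype.card (Fin n × Bool) := by
    simp [mul_comm]
  rw [hc]
  obtain ⟨L, hL⟩ : ∃ L : Zc (I2 n → ℂ) →ₗ[ℂ] ℂ, ∀ x, L x = LF n (zval x) :=
    ⟨(LF n) ∘ₗ (zval (M := I2 n → ℂ)).toLinearMap, fun _ => rfl⟩
  rw [LR_apply, ← hL, pow_bil]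
  have h1 : L (∏ x, bv (ra n x) (cb n x)) = 1 := by
    rw [hL, ← LF_phi n]
    congr 2
    rw [Fintype.prod_prod_type]
    simp only [Fintype.prod_bool, prod_mul_distrib, ra, cb]
    rw [mul_comm]
    rfl
  rw [h1, mul_one]
  obtain ⟨c, hc0, hc'⟩ := sd_nonneg _ (Fin n) rfl (qm A H p1 p2 p3 r)
  unfold sd at hc'
  rw [hc']
  have h2 : (((Fintype.card (Fin n × Bool)).factorial : ℂ) * (c : ℂ)).re =
      (Fintype.card (Fin n × Bool)).factorial * c := by
    rw [← Complex.ofReal_natCast, ← Complex.ofReal_mul, Complex.ofReal_re]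
  rw [h2]
  positivity

/-- the tensor of a symmetric matrix -/
def snR (H : Fin n × Bool → Fin n × Bool → ℝ) : T4 n := fun i j k l =>
  H i k * H j l - H i l * H j k

lemma eL_snR (H : Fin n × Bool → Fin n × Bool → ℝ) :
    eL (cx (fun i j k l => - snR H i j k l)) = (2 : ℂ) • ff false true (cm H) ^ 2 := by
  have h1 : cx (fun i j k l => - snR H i j k l) = fun i j k l =>
      (-1 : ℂ) * (cm H i k * cm H j l) + cm H i l * cm H j k := by
    funext i j k l
    simp only [cx, snR, cm]
    push_cast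
    ring
  rw [h1, eL_add, eL_smul (-1) (fun i j k l => cm H i k * cm H j l), eL_cross, eL_cross']
  rw [neg_smul, one_smul, neg_neg, two_smul]

/-- **Sums of tensors of cross forms.** -/
theorem gm_cross [DecidableEq κ] [DecidableEq l] (A : κ → Fin n × Bool → Fin n × Bool → ℝ)
    (H : l → Fin n × Bool → Fin n × Bool → ℝ) (hA : ∀ k, Cross (A k)) (hH : ∀ a, Cross (H a))
    (sA : ∀ k i j, A k j i = - A k i j) (sH : ∀ a i j, H a j i = H a i j) :
    0 ≤ gm (fun _ : Fin n => (fun i j k l => (∑ q, scR (A q) i j k l) +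
      ∑ a, - snR (H a) i j k l : T4 n)) := by
  rw [gm_LR]
  have he : eL (cx (fun i j k l => (∑ q, scR (A q) i j k l) + ∑ a, - snR (H a) i j k l : T4 n)) =
      (2 : ℂ) • (∑ q, qi (cm (A q)) + ∑ a, ff false true (cm (H a)) ^ 2) := by
    have h1 : cx (fun i j k l => (∑ q, scR (A q) i j k l) + ∑ a, - snR (H a) i j k l : T4 n) =
        fun i j k l => (∑ q, cx (scR (A q)) i j k l) +
          ∑ a, cx (fun i j k l => - snR (H a) i j k l) i j k l := by
      funext i j k l
      simp only [cx]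
      push_cast
      rfl
    rw [h1, eL_add, eL_sum, eL_sum]
    simp only [eL_scR, eL_snR]
    rw [smul_add, smul_sum, smul_sum]
  rw [he, smul_pow]
  have h2 : ((2 : ℂ) ^ n) • (∑ q, qi (cm (A q)) + ∑ a, ff false true (cm (H a)) ^ 2) ^ n =
      ((2 : ℝ) ^ n) • (∑ q, qi (cm (A q)) + ∑ a, ff false true (cm (H a)) ^ 2) ^ n := by
    rw [← Complex.coe_smul]
    push_cast
    rfl
  rw [h2, map_smul, smul_eq_mul]
  refine mul_nonneg (by positivity) ?_
  -- the sum of squares
  let x : (κ × Fin 3) ⊕ l → Zc (I2 n → ℂ) := Sum.elim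
    (fun q => vv (if q.2 = 0 then 1 else 0) (if q.2 = 1 then 1 else 0) (if q.2 = 2 then 1 else 0)
      (cm (A q.1)))
    (fun a => ff false true (cm (H a)))
  have hx2 : ∑ i, x i ^ 2 = ∑ q, qi (cm (A q)) + ∑ a, ff false true (cm (H a)) ^ 2 := by
    rw [Fintype.sum_sum_type]
    simp only [x, Sum.elim_inl, Sum.elim_inr, Fintype.sum_prod_type, Fin.sum_univ_three]
    congr 1
    refine sum_congr rfl fun q _ => ?_
    rw [← vv_sq]
    simp
  have hxs : ∀ ξ : (κ × Fin 3) ⊕ l → ℝ, ∑ i, ξ i • x i =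
      ∑ k, vv (ξ (Sum.inl (k, 0))) (ξ (Sum.inl (k, 1))) (ξ (Sum.inl (k, 2))) (cm (A k)) +
        ∑ a, ((ξ (Sum.inr a) : ℝ) : ℂ) • ff false true (cm (H a)) := by
    intro ξ
    rw [Fintype.sum_sum_type]
    simp only [x, Sum.elim_inl, Sum.elim_inr, Fintype.sum_prod_type, Fin.sum_univ_three]
    congr 1
    · refine sum_congr rfl fun k _ => ?_
      have h3 := vv_comb (ξ (Sum.inl (k, 0))) (ξ (Sum.inl (k, 1))) (ξ (Sum.inl (k, 2))) (cm (A k))
      rw [← h3]
      simp
  have h := gauss_pos x 1 (LR n) n (fun ξ => by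
    rw [mul_one, hxs]
    exact top_nonneg A H hA hH sA sH _ _ _ _)
  rwa [mul_one, hx2] at h

end elem

end Pool.Agent.T9h14.QD
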