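import Pool.Agent.T9h14.BQ.Top3
import Pool.Agent.T9h14.QD.Main

/-!
# Alignment of pure vectors
-/

set_option autoImplicit false

namespace Pool.Agent.T9h14.QD

open Finset Pool.Agent.W666.GB Pool.Agent.W669.HD Pool.Agent.Y519.HB Pool.Agent.T9h14.BQ

section

variable {J ι : Type} [Fintype J] {col : J → ι} {α β : ι} {P : J → J → J → J → ℝ}

/-- one index of each of the two colours -/
def Cr (col : J → ι) (α β : ι) (i j : J) : Prop :=
  (col i = α ∧ col j = β) ∨ (col i = β ∧ col j = α)

/-- the components which do not vanish pair the two colours -/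
def PairC (col : J → ι) (α β : ι) (P : J → J → J → J → ℝ) : Prop :=
  ∀ i j k l, P i j k l ≠ 0 → (Cr col α β i j ∧ Cr col α β k l) ∨ (Cr col α β i k ∧ Cr col α β j l) ∨
    (Cr col α β i l ∧ Cr col α β j k)

lemma ev4_ne {x y z w : J → ℝ} (h : ev4 P x y z w ≠ 0) :
    ∃ i j k l, x i ≠ 0 ∧ y j ≠ 0 ∧ z k ≠ 0 ∧ w l ≠ 0 ∧ P i j k l ≠ 0 := by
  unfold ev4 at h
  obtain ⟨p, -, hp⟩ := Finset.exists_ne_zero_of_sum_ne_zero h
  refine ⟨p.1.1, p.1.2, p.2.1, p.2.2, ?_, ?_, ?_, ?_, ?_⟩ <;>
  · intro h0
    apply hp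
    rw [h0]
    ring

/-- the indicator of the first colour -/
noncomputable def ind (col : J → ι) (α : ι) (x : J → ℝ) : ℕ := by
  classical exact if Sup col α x then 1 else 0

lemma ind_one {x : J → ℝ} (hx : Pur col x) {i : J} (hi : x i ≠ 0) (hc : col i = α) :
    ind col α x = 1 := by
  unfold ind
  rw [if_pos (sup_of_pur hx hc hi)]

lemma ind_zero {x : J → ℝ} {i : J} (hi : x i ≠ 0) (hc : col i ≠ α) :
    ind col α x = 0 := by
  unfold ind
  rw [if_neg]
  intro h
  exact hi (h i hc)

lemma ind_le (x : J → ℝ) : ind col α x ≤ 1 := by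
  unfold ind
  split_ifs <;> omega

lemma Cr.sum {i j : J} (hne : α ≠ β) (h : Cr col α β i j) {x y : J → ℝ} (hx : Pur col x)
    (hy : Pur col y) (hi : x i ≠ 0) (hj : y j ≠ 0) : ind col α x + ind col α y = 1 := by
  rcases h with ⟨h1, h2⟩ | ⟨h1, h2⟩
  · rw [ind_one hx hi h1, ind_zero hj (by rw [h2]; exact Ne.symm hne)]
  · rw [ind_zero hi (by rw [h1]; exact Ne.symm hne), ind_one hy hj h2]

lemma Cr.left {i j : J} (h : Cr col α β i j) : col i = α ∨ col i = β := by
  rcases h with ⟨h1, -⟩ | ⟨h1, -⟩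
  · exact Or.inl h1
  · exact Or.inr h1

lemma Cr.right {i j : J} (h : Cr col α β i j) : col j = α ∨ col j = β := by
  rcases h with ⟨-, h1⟩ | ⟨-, h1⟩
  · exact Or.inr h1
  · exact Or.inl h1

/-- a nonvanishing factor has exactly two vectors of the first colour -/
lemma two_of_ne (hne : α ≠ β) (hP : PairC col α β P) {x y z w : J → ℝ} (hx : Pur col x)
    (hy : Pur col y) (hz : Pur col z) (hw : Pur col w) (h : ev4 P x y z w ≠ 0) :
    ind col α x + ind col α y + (ind col α z + ind col α w) = 2 ∧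
      (ind col α x = 0 → Sup col β x) ∧ (ind col α y = 0 → Sup col β y) := by
  obtain ⟨i, j, k, l, hi, hj, hk, hl, hp⟩ := ev4_ne h
  have hcol : (col i = α ∨ col i = β) ∧ (col j = α ∨ col j = β) := by
    rcases hP i j k l hp with ⟨h1, h2⟩ | ⟨h1, h2⟩ | ⟨h1, h2⟩
    · exact ⟨h1.left, h1.right⟩
    · exact ⟨h1.left, h2.left⟩
    · exact ⟨h1.left, h2.left⟩
  refine ⟨?_, ?_, ?_⟩
  · rcases hP i j k l hp with ⟨h1, h2⟩ | ⟨h1, h2⟩ | ⟨h1, h2⟩
    · have e1 := h1.sum hne hx hy hi hj
      have e2 := h2.sum hne hz hw hk hl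
      omega
    · have e1 := h1.sum hne hx hz hi hk
      have e2 := h2.sum hne hy hw hj hl
      omega
    · have e1 := h1.sum hne hx hw hi hl
      have e2 := h2.sum hne hy hz hj hk
      omega
  · intro h0
    rcases hcol.1 with hc | hc
    · rw [ind_one hx hi hc] at h0
      omega
    · exact sup_of_pur hx hc hi
  · intro h0
    rcases hcol.2 with hc | hc
    · rw [ind_one hy hj hc] at h0
      omega
    · exact sup_of_pur hy hc hj

/-- **Alignment.** -/
theorem alignC (hne : α ≠ β) (hP : PairC col α β P) {T : Type} [Fintype T] [DecidableEq T]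
    (y : T × Bool → J → ℝ) (hy : ∀ q, Pur col (y q))
    (hH : ∀ y : T × Bool → J → ℝ, (∀ b, Sup col α (y (b, false))) →
      (∀ b, Sup col β (y (b, true))) → 0 ≤ EE (fun _ : T => P) y) :
    0 ≤ EE (fun _ : T => P) y := by
  classical
  by_cases hz : ∀ π π' : Equiv.Perm (T × Bool), (∏ b : T, ev4 P (y (π (b, false)))
      (y (π (b, true))) (y (π' (b, false))) (y (π' (b, true)))) = 0
  · unfold Pool.Agent.Y519.HB.EE
    simp [hz]
  · push Not at hz
    obtain ⟨π, π', hprod⟩ := hz
    have hb : ∀ b, ev4 P (y (π (b, false))) (y (π (b, true))) (y (π' (b, false)))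
        (y (π' (b, true))) ≠ 0 := fun b => (Finset.prod_ne_zero_iff.1 hprod) b (mem_univ b)
    have h2 := fun b => two_of_ne hne hP (hy _) (hy _) (hy _) (hy _) (hb b)
    -- the number of the vectors of the first colour
    have hsumπ : ∀ π : Equiv.Perm (T × Bool), ∑ b : T, (ind col α (y (π (b, false))) +
        ind col α (y (π (b, true)))) = ∑ q, ind col α (y q) := by
      intro π
      rw [← Equiv.sum_comp π, Fintype.sum_prod_type]
      refine sum_congr rfl fun b _ => ?_
      rw [Fintype.sum_bool, add_comm]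
    have hcount : ∑ q, ind col α (y q) = Fintype.card T := by
      have h3 : ∑ b : T, ((ind col α (y (π (b, false))) + ind col α (y (π (b, true)))) +
          (ind col α (y (π' (b, false))) + ind col α (y (π' (b, true))))) = 2 * Fintype.card T := by
        rw [sum_congr rfl fun b _ => (h2 b).1, sum_const, card_univ, smul_eq_mul, mul_comm]
      rw [sum_add_distrib, hsumπ, hsumπ] at h3
      omega
    have hbeta : ∀ q, ind col α (y q) = 0 → Sup col β (y q) := by
      intro q hq
      obtain ⟨⟨b, c⟩, hbc⟩ := π.surjective q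
      rw [← hbc] at hq ⊢
      cases c
      · exact (h2 b).2.1 hq
      · exact (h2 b).2.2 hq
    have halpha : ∀ q, ind col α (y q) = 1 → Sup col α (y q) := by
      intro q hq
      by_contra hc
      unfold ind at hq
      rw [if_neg hc] at hq
      omega
    have hcard : Fintype.card {q : T × Bool // ind col α (y q) = 1} = Fintype.card T := by
      rw [← hcount, Fintype.card_subtype, Finset.card_filter]
      refine sum_congr rfl fun q _ => ?_
      have := ind_le (col := col) (α := α) (y q)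
      split_ifs <;> omega
    have hcard' : Fintype.card {q : T × Bool // ¬ ind col α (y q) = 1} = Fintype.card T := by
      rw [Fintype.card_subtype_compl, hcard, Fintype.card_prod, Fintype.card_bool]
      omega
    obtain ⟨e1⟩ := Fintype.card_eq.1 hcard.symm
    obtain ⟨e2⟩ := Fintype.card_eq.1 hcard'.symm
    obtain ⟨ρ, hρ0, hρ1⟩ : ∃ ρ : Equiv.Perm (T × Bool), (∀ b, ρ (b, false) = (e1 b).1) ∧
        ∀ b, ρ (b, true) = (e2 b).1 := by
      refine ⟨((Equiv.boolProdEquivSum T).symm.trans (Equiv.prodComm Bool T)).symm.trans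
        ((Equiv.sumCongr e1 e2).trans (Equiv.sumCompl _)), fun b => ?_, fun b => ?_⟩
      · rfl
      · rfl
    rw [← EE_perm (fun _ : T => P) y ρ]
    refine hH _ ?_ ?_
    · intro b
      rw [hρ0]
      exact halpha _ (e1 b).2
    · intro b
      rw [hρ1]
      refine hbeta _ ?_
      have h3 := (e2 b).2
      have := ind_le (col := col) (α := α) (y (e2 b).1)
      omega

end

end Pool.Agent.T9h14.QD
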