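import Mathlib.Algebra.Quaternion
import Mathlib.LinearAlgebra.Matrix.SchurComplement
import Mathlib.Data.Matrix.Composition
import Mathlib.LinearAlgebra.Complex.Module
import Mathlib.Tactic

/-!
# The determinant of a quaternionic matrix is nonnegative
-/

set_option autoImplicit false

namespace Pool.Agent.T9h14.QD

open Quaternion Matrix Finset

/-- the quaternions as complex matrices, entries -/
def phF (q : ℍ[ℝ]) : Matrix Bool Bool ℂ := Matrix.of fun s t =>
  if s then (if t then (⟨q.re, -q.imI⟩ : ℂ) else ⟨-q.imJ, q.imK⟩)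
  else (if t then ⟨q.imJ, q.imK⟩ else ⟨q.re, q.imI⟩)

/-- the quaternions as complex matrices -/
def ph : ℍ[ℝ] →+* Matrix Bool Bool ℂ where
  toFun := phF
  map_one' := by
    ext s t
    cases s <;> cases t <;> simp [phF, Complex.ext_iff]
  map_mul' x y := by
    ext s t
    rw [Matrix.mul_apply, Fintype.sum_bool]
    cases s <;> cases t <;> simp [phF, Complex.ext_iff] <;> constructor <;> ring
  map_zero' := by
    ext s t
    cases s <;> cases t <;> simp [phF, Complex.ext_iff]
  map_add' x y := by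
    ext s t
    cases s <;> cases t <;> simp [phF, Complex.ext_iff] <;> ring

lemma ph_apply (q : ℍ[ℝ]) (s t : Bool) : ph q s t =
    if s then (if t then (⟨q.re, -q.imI⟩ : ℂ) else ⟨-q.imJ, q.imK⟩)
    else (if t then ⟨q.imJ, q.imK⟩ else ⟨q.re, q.imI⟩) := rfl

lemma ph_det (q : ℍ[ℝ]) : (ph q).det =
    ((q.re ^ 2 + q.imI ^ 2 + q.imJ ^ 2 + q.imK ^ 2 : ℝ) : ℂ) := by
  rw [← Matrix.det_submatrix_equiv_self finTwoEquiv, Matrix.det_fin_two]
  have h0 : finTwoEquiv 0 = false := rfl
  have h1 : finTwoEquiv 1 = true := rfl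
  simp only [Matrix.submatrix_apply, h0, h1, ph_apply]
  apply Complex.ext
  · rw [Complex.ofReal_re]
    simp
    ring
  · rw [Complex.ofReal_im]
    simp
    ring

/-- the complex determinant of a quaternionic matrix -/
noncomputable def sd {I : Type} [Fintype I] [DecidableEq I] (q : Matrix I I ℍ[ℝ]) : ℂ :=
  (Matrix.of fun x y : I × Bool => ph (q x.1 y.1) x.2 y.2).det

lemma sd_permute {I : Type} [Fintype I] [DecidableEq I] (q : Matrix I I ℍ[ℝ])
    (σ : Equiv.Perm I) : sd (q.submatrix σ id) = sd q := by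
  unfold sd
  have h : (Matrix.of fun x y : I × Bool => ph ((q.submatrix σ id) x.1 y.1) x.2 y.2) =
      (Matrix.of fun x y : I × Bool => ph (q x.1 y.1) x.2 y.2).submatrix
        (Equiv.prodCongrLeft fun _ => σ) id := by
    ext x y
    simp [Equiv.prodCongrLeft]
  rw [h, Matrix.det_permute, Equiv.Perm.sign_prodCongrLeft]
  rw [Finset.prod_const, Finset.card_univ, Fintype.card_bool]
  rw [Int.units_sq]
  simp

/-- the equivalence which separates one index -/
def sepE {I : Type} [DecidableEq I] (i0 : I) : Bool ⊕ ({i // i ≠ i0} × Bool) ≃ I × Bool where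
  toFun x := match x with
    | Sum.inl s => (i0, s)
    | Sum.inr p => (p.1.1, p.2)
  invFun x := if h : x.1 = i0 then Sum.inl x.2 else Sum.inr (⟨x.1, h⟩, x.2)
  left_inv x := by
    rcases x with s | ⟨⟨i, hi⟩, s⟩
    · simp
    · simp [hi]
  right_inv x := by
    obtain ⟨i, s⟩ := x
    by_cases h : i = i0
    · simp [h]
    · simp [h]

/-- the Schur complement -/
lemma sd_schur {I : Type} [Fintype I] [DecidableEq I] (q : Matrix I I ℍ[ℝ]) (i0 : I)
    (h0 : q i0 i0 ≠ 0) : sd q = (ph (q i0 i0)).det *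
      sd (Matrix.of fun i j : {i // i ≠ i0} => q i j - q i i0 * (q i0 i0)⁻¹ * q i0 j) := by
  have hA : ph (q i0 i0) * ph ((q i0 i0)⁻¹) = 1 := by
    rw [← map_mul, mul_inv_cancel₀ h0, map_one]
  let _ : Invertible (ph (q i0 i0)) :=
    ⟨ph ((q i0 i0)⁻¹), by rw [← map_mul, inv_mul_cancel₀ h0, map_one], hA⟩
  unfold sd
  rw [← Matrix.det_submatrix_equiv_self (sepE i0)]
  have hb : (Matrix.of fun x y : I × Bool => ph (q x.1 y.1) x.2 y.2).submatrix (sepE i0) (sepE i0) =
      Matrix.fromBlocks (ph (q i0 i0))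
        (Matrix.of fun (s : Bool) (y : {i // i ≠ i0} × Bool) => ph (q i0 y.1) s y.2)
        (Matrix.of fun (x : {i // i ≠ i0} × Bool) (t : Bool) => ph (q x.1 i0) x.2 t)
        (Matrix.of fun x y : {i // i ≠ i0} × Bool => ph (q x.1 y.1) x.2 y.2) := by
    ext x y
    rcases x with s | ⟨⟨i, hi⟩, s⟩ <;> rcases y with t | ⟨⟨j, hj⟩, t⟩ <;> rfl
  rw [hb, Matrix.det_fromBlocks₁₁]
  congr 2
  ext x y
  have hinv : (⅟ (ph (q i0 i0))) = ph ((q i0 i0)⁻¹) := rfl
  rw [hinv]
  simp only [Matrix.sub_apply, Matrix.of_apply, map_sub, map_mul, Matrix.mul_apply]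

/-- **The complex determinant of a quaternionic matrix is real and nonnegative.** -/
theorem sd_nonneg (n : ℕ) : ∀ (I : Type) [Fintype I] [DecidableEq I], Fintype.card I = n →
    ∀ q : Matrix I I ℍ[ℝ], ∃ r : ℝ, 0 ≤ r ∧ sd q = (r : ℂ) := by
  induction n with
  | zero =>
    intro I _ _ hI q
    have : IsEmpty I := Fintype.card_eq_zero_iff.1 hI
    refine ⟨1, zero_le_one, ?_⟩
    unfold sd
    rw [Matrix.det_isEmpty]
    simp
  | succ n ih =>
    intro I _ _ hI q
    have hne : Nonempty I := Fintype.card_pos_iff.1 (by omega)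
    obtain ⟨i0⟩ := hne
    by_cases hz : ∀ i, q i i0 = 0
    · refine ⟨0, le_rfl, ?_⟩
      unfold sd
      rw [Complex.ofReal_zero]
      refine Matrix.det_eq_zero_of_column_eq_zero (i0, false) fun x => ?_
      rw [Matrix.of_apply, hz, map_zero]
      rfl
    · push Not at hz
      obtain ⟨i1, hi1⟩ := hz
      rw [← sd_permute q (Equiv.swap i0 i1)]
      obtain ⟨q', hq'⟩ : ∃ q', q' = q.submatrix (Equiv.swap i0 i1) id := ⟨_, rfl⟩
      rw [← hq']
      have h0 : q' i0 i0 ≠ 0 := by
        rw [hq', Matrix.submatrix_apply, Equiv.swap_apply_left]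
        exact hi1
      rw [sd_schur q' i0 h0]
      obtain ⟨r, hr, hr'⟩ := ih {i // i ≠ i0} (by
        rw [Fintype.card_subtype_compl, Fintype.card_subtype_eq, hI]
        rfl) (Matrix.of fun i j : {i // i ≠ i0} =>
          q' i j - q' i i0 * (q' i0 i0)⁻¹ * q' i0 j)
      refine ⟨((q' i0 i0).re ^ 2 + (q' i0 i0).imI ^ 2 + (q' i0 i0).imJ ^ 2 +
        (q' i0 i0).imK ^ 2) * r, by positivity, ?_⟩
      rw [hr', ph_det]
      push_cast
      ring

end Pool.Agent.T9h14.QD
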