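import Pool.Agent.Y195.HF.Main
import Pool.Agent.T9h14.QD.Study

/-!
# Powers of bilinear elements of the exterior algebra
-/

set_option autoImplicit false

namespace Pool.Agent.T9h14.QD

open Finset Pool.Agent.Y195.HF

section pow

variable {I : Type} [Fintype I] [dI : DecidableEq I]

/-- the top power of a sum of elements of square zero -/
lemma pow_sum {R : Type} [CommRing R] (x : I → R) (hx : ∀ r, x r ^ 2 = 0) :
    (∑ r, x r) ^ Fintype.card I = (Fintype.card I).factorial * ∏ r, x r := by
  rw [Finset.sum_pow_eq_sum_piAntidiag]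
  rw [Finset.sum_eq_single (fun _ => 1)]
  · congr 1
    · have := Nat.multinomial_spec (univ : Finset I) (fun _ => 1)
      simp only [Nat.factorial_one, Finset.prod_const_one, one_mul, Finset.sum_const,
        Finset.card_univ, smul_eq_mul, mul_one] at this
      rw [this]
    · simp
  · intro k hk hne
    have hsum : ∑ i, k i = Fintype.card I := (Finset.mem_piAntidiag.mp hk).1
    have h2 : ∃ i, 2 ≤ k i := by
      by_contra hc
      push Not at hc
      have h1 : ∀ i, k i ≤ 1 := fun i => by
        have := hc i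
        omega
      refine hne (funext fun i => ?_)
      by_contra hi
      have h0 : k i < 1 := lt_of_le_of_ne (h1 i) hi
      have : ∑ i, k i < ∑ _i : I, 1 :=
        Finset.sum_lt_sum (fun i _ => h1 i) ⟨i, mem_univ i, h0⟩
      rw [hsum] at this
      simp at this
    obtain ⟨i, hi⟩ := h2
    have h3 : x i ^ k i = 0 := by
      obtain ⟨c, hc⟩ := Nat.exists_eq_add_of_le hi
      rw [hc, pow_add, hx, zero_mul]
    rw [Finset.prod_eq_zero (mem_univ i) h3, mul_zero]
  · intro h
    refine absurd (Finset.mem_piAntidiag.mpr ⟨?_, fun i _ => mem_univ i⟩) h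
    simp

variable {M : Type} [AddCommGroup M] [Module ℂ M]

lemma upd_prod {α β : Type} [CommRing β] (f : I → α → β) (v : I → α) (x : I) (c : α) :
    ∏ r, f r (Function.update v x c r) = f x c * ∏ r ∈ univ.erase x, f r (v r) := by
  rw [← Finset.mul_prod_erase univ _ (mem_univ x), Function.update_self]
  congr 1
  refine prod_congr rfl fun r hr => ?_
  rw [Function.update_of_ne (Finset.ne_of_mem_erase hr)]

/-- the product of bivectors with fixed first factors -/
noncomputable def prodA (a : I → M) (L : Zc M →ₗ[ℂ] ℂ) : M [⋀^I]→ₗ[ℂ] ℂ where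
  toFun v := L (∏ r, bv (a r) (v r))
  map_update_add' := by
    intro hd v x c c'
    have hd' : hd = dI := Subsingleton.elim _ _
    subst hd'
    rw [upd_prod (fun r => bv (a r)), upd_prod (fun r => bv (a r)), upd_prod (fun r => bv (a r)),
      bv_add_right, add_mul, map_add]
  map_update_smul' := by
    intro hd v x z c
    have hd' : hd = dI := Subsingleton.elim _ _
    subst hd'
    rw [upd_prod (fun r => bv (a r)), upd_prod (fun r => bv (a r)), bv_smul_right,
      smul_mul_assoc, map_smul]
  map_eq_zero_of_eq' := by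
    intro v x y h hxy
    have h1 : ∏ r, bv (a r) (v r) = 0 := by
      rw [← Finset.mul_prod_erase univ _ (mem_univ x),
        ← Finset.mul_prod_erase (univ.erase x) _ (Finset.mem_erase.mpr ⟨Ne.symm hxy, mem_univ y⟩),
        ← mul_assoc, bv_mul_zero (Or.inr (Or.inr h)), zero_mul]
    rw [h1, map_zero]

/-- the linear combinations of `b` -/
noncomputable def comb (b : I → M) : (I → ℂ) →ₗ[ℂ] M where
  toFun c := ∑ i, c i • b i
  map_add' c c' := by
    simp only [Pi.add_apply, add_smul, sum_add_distrib]
  map_smul' z c := by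
    simp only [Pi.smul_apply, smul_eq_mul, mul_smul, smul_sum, RingHom.id_apply]

lemma prodA_comb (a b : I → M) (L : Zc M →ₗ[ℂ] ℂ) (Q : Matrix I I ℂ) :
    L (∏ r, bv (a r) (∑ c, Q r c • b c)) = Q.det * L (∏ r, bv (a r) (b r)) := by
  have h := ((prodA a L).compLinearMap (comb b)).eq_smul_basis_det (Pi.basisFun ℂ I)
  have h1 := congrArg (fun f : (I → ℂ) [⋀^I]→ₗ[ℂ] ℂ => f Q) h
  simp only [AlternatingMap.smul_apply, Pi.basisFun_det_apply, smul_eq_mul] at h1
  have h2 : ((prodA a L).compLinearMap (comb b)) Q = L (∏ r, bv (a r) (∑ c, Q r c • b c)) := rfl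
  have h3 : ((prodA a L).compLinearMap (comb b)) (Pi.basisFun ℂ I) =
      L (∏ r, bv (a r) (b r)) := by
    change L (∏ r, bv (a r) (∑ c, (Pi.basisFun ℂ I) r c • b c)) = _
    congr 1
    refine prod_congr rfl fun r _ => ?_
    congr 1
    rw [Finset.sum_eq_single r]
    · simp
    · intro c _ hc
      simp [hc]
    · simp
  rw [h2, h3] at h1
  rw [h1, mul_comm]
  rfl

/-- **The top power of a bilinear element.** -/
theorem pow_bil (a b : I → M) (L : Zc M →ₗ[ℂ] ℂ) (Q : Matrix I I ℂ) :
    L ((∑ r, ∑ c, Q r c • bv (a r) (b c)) ^ Fintype.card I) =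
      (Fintype.card I).factorial * (Q.det * L (∏ r, bv (a r) (b r))) := by
  have h1 : ∀ r, ∑ c, Q r c • bv (a r) (b c) = bv (a r) (∑ c, Q r c • b c) := by
    intro r
    apply zval_inj
    simp only [bv_coe, map_sum, map_smul, Finset.mul_sum, mul_smul_comm]
  simp only [h1]
  rw [pow_sum]
  · rw [← prodA_comb, ← nsmul_eq_mul, map_nsmul, nsmul_eq_mul]
  · intro r
    rw [sq, bv_mul_zero (Or.inl (Or.inl rfl))]

end pow

end Pool.Agent.T9h14.QD
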