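import Pool.Agent.T9h14.QD.Top4

/-!
# Sums of squares of bilinear forms
-/

set_option autoImplicit false

namespace Pool.Agent.T9h14.QD

open Pool.Agent.W666.GB Pool.Agent.W669.HD Pool.Agent.T9h14.BQ Finset
open Pool.Agent.Y195.HF (SkewForm skewCurv)
open Pool.Agent.R770.NS (SymForm knSq)

variable {V : Type} [NormedAddCommGroup V] [InnerProductSpace ℝ V]

section algebra

variable {D : V → V → V → V → ℝ}

lemma curv_add2 (h : AlgCurv D) (x y y' z w : V) : D x (y + y') z w = D x y z w + D x y' z w := by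
  rw [← neg_inj, ← h.anti, h.add, h.anti x y, h.anti x y']
  ring

lemma curv_add3 (h : AlgCurv D) (x y z z' w : V) : D x y (z + z') w = D x y z w + D x y z' w := by
  have q1 := h.pair x y (z + z') w
  have q2 := h.pair x y z w
  have q3 := h.pair x y z' w
  have q4 := h.add z z' w x y
  linarith

lemma curv_add4 (h : AlgCurv D) (x y z w w' : V) : D x y z (w + w') = D x y z w + D x y z w' := by
  have q1 := h.pair x y z (w + w')
  have q2 := h.pair x y z w
  have q3 := h.pair x y z w'
  have q4 := curv_add2 h z w w' x y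
  linarith

lemma curv_anti2 (h : AlgCurv D) (x y z w : V) : D x y w z = - D x y z w := by
  rw [← h.pair, h.anti, h.pair]

/-- A tensor of a pair of blocks is determined by its biquadratic form. -/
theorem pair_unique [FiniteDimensional ℝ V] {A B : Submodule ℝ V} (hD : PairTensor A B D)
    (h0 : ∀ a ∈ A, ∀ b ∈ B, D a b a b = 0) (x y z w : V) : D x y z w = 0 := by
  have hc := hD.curv
  -- one argument in each block, twice
  have k1 : ∀ a ∈ A, ∀ a' ∈ A, ∀ b ∈ B, D a b a' b = 0 := by
    intro a ha a' ha' b hb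
    have h1 := h0 (a + a') (A.add_mem ha ha') b hb
    rw [hc.add, curv_add3 hc, curv_add3 hc, h0 a ha b hb, h0 a' ha' b hb, hc.pair a b a' b] at h1
    linarith
  have sw : ∀ a ∈ A, ∀ a' ∈ A, ∀ b b', D a b a' b' = D a' b a b' := by
    intro a ha a' ha' b b'
    have h1 := hc.bianchi a b a' b'
    have h2 := hD.aa a' ha' a ha b b'
    have h3 := hc.anti a' b a b'
    linarith
  have k2 : ∀ a ∈ A, ∀ a' ∈ A, ∀ b ∈ B, ∀ b' ∈ B, D a b a' b' = 0 := by
    intro a ha a' ha' b hb b' hb'
    have h1 := k1 a ha a' ha' (b + b') (B.add_mem hb hb')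
    rw [curv_add2 hc, curv_add4 hc, curv_add4 hc, k1 a ha a' ha' b hb, k1 a ha a' ha' b' hb'] at h1
    have h2 := hc.pair a b a' b'
    have h3 := sw a' ha' a ha b' b
    have h4 : D a b' a' b = D a b a' b' := by
      rw [sw a ha a' ha' b' b, h2]
    linarith
  -- decomposition
  have hdec : ∀ x : V, ∃ a ∈ A, ∃ b ∈ B, ∀ y z w, D x y z w = D a y z w + D b y z w := by
    intro x
    have hx : (A ⊔ B).starProjection x ∈ A ⊔ B := Submodule.starProjection_apply_mem _ _
    obtain ⟨a, ha, b, hb, hab⟩ := Submodule.mem_sup.1 hx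
    refine ⟨a, ha, b, hb, fun y z w => ?_⟩
    have h1 : x = (a + b) + (x - (A ⊔ B).starProjection x) := by
      rw [hab]; abel
    have h2 := hD.lives _ ((A ⊔ B).sub_starProjection_mem_orthogonal x) y z w
    rw [h1, hc.add, hc.add, h2, add_zero]
  obtain ⟨a1, ha1, b1, hb1, h1⟩ := hdec x
  obtain ⟨a2, ha2, b2, hb2, h2⟩ := hdec y
  obtain ⟨a3, ha3, b3, hb3, h3⟩ := hdec z
  obtain ⟨a4, ha4, b4, hb4, h4⟩ := hdec w
  have e2 : ∀ u z w, D u y z w = D u a2 z w + D u b2 z w := by
    intro u z w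
    have q1 := hc.anti u y z w
    have q2 := hc.anti u a2 z w
    have q3 := hc.anti u b2 z w
    have q4 := h2 u z w
    linarith
  have e3 : ∀ u v w, D u v z w = D u v a3 w + D u v b3 w := by
    intro u v w
    have q1 := hc.pair u v z w
    have q2 := hc.pair u v a3 w
    have q3 := hc.pair u v b3 w
    have q4 := h3 w u v
    linarith
  have e4 : ∀ u v s, D u v s w = D u v s a4 + D u v s b4 := by
    intro u v s
    have q1 := curv_anti2 hc u v s w
    have q2 := curv_anti2 hc u v s a4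
    have q3 := curv_anti2 hc u v s b4
    have q4 := hc.pair u v w s
    have q5 := hc.pair u v a4 s
    have q6 := hc.pair u v b4 s
    have q7 := h4 s u v
    linarith
  have f1 : ∀ {a a' b b' : V}, a ∈ A → a' ∈ A → b ∈ B → b' ∈ B → D a b b' a' = 0 := by
    intro a a' b b' ha ha' hb hb'
    rw [curv_anti2 hc, k2 a ha a' ha' b hb b' hb', neg_zero]
  have f2 : ∀ {a a' b b' : V}, a ∈ A → a' ∈ A → b ∈ B → b' ∈ B → D b a a' b' = 0 := by
    intro a a' b b' ha ha' hb hb'
    rw [hc.anti a b, k2 a ha a' ha' b hb b' hb', neg_zero]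
  have f3 : ∀ {a a' b b' : V}, a ∈ A → a' ∈ A → b ∈ B → b' ∈ B → D b a b' a' = 0 := by
    intro a a' b b' ha ha' hb hb'
    rw [hc.anti a b, f1 ha ha' hb hb', neg_zero]
  have q0 := h1 y z w
  have q1 := e2 a1 z w
  have q2 := e2 b1 z w
  have q3 := hD.aa a1 ha1 a2 ha2 z w
  have q4 := hD.bb b1 hb1 b2 hb2 z w
  have q5 := e3 a1 b2 w
  have q6 := e3 b1 a2 w
  have q7 := e4 a1 b2 a3
  have q8 := e4 a1 b2 b3
  have q9 := e4 b1 a2 a3
  have q10 := e4 b1 a2 b3
  have q11 := hD.aa a3 ha3 a4 ha4 a1 b2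
  have q12 := hD.bb b3 hb3 b4 hb4 a1 b2
  have q13 := hD.aa a3 ha3 a4 ha4 b1 a2
  have q14 := hD.bb b3 hb3 b4 hb4 b1 a2
  rw [← hc.pair] at q11 q12 q13 q14
  have q15 := k2 a1 ha1 a3 ha3 b2 hb2 b4 hb4
  have q16 := f1 ha1 ha4 hb2 hb3
  have q17 := f2 ha2 ha3 hb1 hb4
  have q18 := f3 ha2 ha4 hb1 hb3
  linarith

end algebra

section sos

variable {A B : Submodule ℝ V}

/-- the skew form of a bilinear form on `A × B` -/
noncomputable def skF (A B : Submodule ℝ V) [A.HasOrthogonalProjection] [B.HasOrthogonalProjection]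
    (φ : V →ₗ[ℝ] V →ₗ[ℝ] ℝ) (x y : V) : ℝ :=
  (φ (A.starProjection x) (B.starProjection y) - φ (A.starProjection y) (B.starProjection x)) / 2

/-- the symmetric form of a bilinear form on `A × B` -/
noncomputable def syF (A B : Submodule ℝ V) [A.HasOrthogonalProjection] [B.HasOrthogonalProjection]
    (φ : V →ₗ[ℝ] V →ₗ[ℝ] ℝ) (x y : V) : ℝ :=
  (φ (A.starProjection x) (B.starProjection y) + φ (A.starProjection y) (B.starProjection x)) / 2

variable [A.HasOrthogonalProjection] [B.HasOrthogonalProjection]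

lemma proj_zero {x : V} (hx : ∀ a ∈ A, inner ℝ a x = 0) : A.starProjection x = 0 := by
  refine Submodule.eq_starProjection_of_mem_orthogonal A.zero_mem ?_
  rw [sub_zero, Submodule.mem_orthogonal]
  exact hx

lemma proj_id {x : V} (hx : x ∈ A) : A.starProjection x = x :=
  Submodule.starProjection_eq_self_iff.2 hx

lemma skF_skew (φ : V →ₗ[ℝ] V →ₗ[ℝ] ℝ) : SkewForm (skF A B φ) where
  add x x' y := by simp only [skF, map_add, LinearMap.add_apply]; ring
  smul t x y := by simp only [skF, map_smul, LinearMap.smul_apply, smul_eq_mul]; ring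
  anti x y := by simp only [skF]; ring

lemma syF_sym (φ : V →ₗ[ℝ] V →ₗ[ℝ] ℝ) : SymForm (syF A B φ) where
  add x x' y := by simp only [syF, map_add, LinearMap.add_apply]; ring
  smul t x y := by simp only [syF, map_smul, LinearMap.smul_apply, smul_eq_mul]; ring
  symm x y := by simp only [syF]; ring

variable (hAB : ∀ a ∈ A, ∀ b ∈ B, inner ℝ a b = 0)

include hAB

lemma pB_A {x : V} (hx : x ∈ A) : B.starProjection x = 0 :=
  proj_zero fun b hb => by rw [real_inner_comm]; exact hAB x hx b hb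

lemma pA_B {x : V} (hx : x ∈ B) : A.starProjection x = 0 :=
  proj_zero fun a ha => hAB a ha x hx

lemma skF_cross (φ : V →ₗ[ℝ] V →ₗ[ℝ] ℝ) : CrossForm A B (skF A B φ) where
  aa x hx y hy := by simp [skF, pB_A hAB hx, pB_A hAB hy]
  bb x hx y hy := by simp [skF, pA_B hAB hx, pA_B hAB hy]
  perp x hx y := by
    rw [Submodule.mem_orthogonal] at hx
    have h1 : A.starProjection x = 0 := proj_zero fun a ha => hx a (Submodule.mem_sup_left ha)
    have h2 : B.starProjection x = 0 := proj_zero fun b hb => hx b (Submodule.mem_sup_right hb)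
    simp [skF, h1, h2]

lemma syF_cross (φ : V →ₗ[ℝ] V →ₗ[ℝ] ℝ) : CrossForm A B (syF A B φ) where
  aa x hx y hy := by simp [syF, pB_A hAB hx, pB_A hAB hy]
  bb x hx y hy := by simp [syF, pA_B hAB hx, pA_B hAB hy]
  perp x hx y := by
    rw [Submodule.mem_orthogonal] at hx
    have h1 : A.starProjection x = 0 := proj_zero fun a ha => hx a (Submodule.mem_sup_left ha)
    have h2 : B.starProjection x = 0 := proj_zero fun b hb => hx b (Submodule.mem_sup_right hb)
    simp [syF, h1, h2]

/-- **Sums of squares.** -/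
theorem sos_quat [FiniteDimensional ℝ V] {F : V → V → V → V → ℝ} (hF : PairTensor A B F) {q : ℕ}
    (φ : Fin q → V →ₗ[ℝ] V →ₗ[ℝ] ℝ)
    (h : ∀ a ∈ A, ∀ b ∈ B, - F a b a b = ∑ k, φ k a b ^ 2) : QuatPair A B F := by
  refine ⟨q, q, fun k => skF A B (φ k), fun k => syF A B (φ k),
    fun k => ⟨skF_skew _, skF_cross hAB _⟩, fun k => ⟨syF_sym _, syF_cross hAB _⟩, ?_⟩
  obtain ⟨G, hG⟩ : ∃ G : V → V → V → V → ℝ, G = fun x y z w =>
    -((∑ k, skewCurv (skF A B (φ k)) x y z w) - ∑ k, knSq (syF A B (φ k)) x y z w) := ⟨_, rfl⟩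
  have hGc : AlgCurv G := by
    rw [hG]
    exact cross_curv (fun k => skF_skew _) (fun k => syF_sym _)
  have hp : PairTensor A B (fun x y z w => F x y z w - G x y z w) := by
    refine ⟨Pool.Agent.Y519.HB.sub_curv hF.curv hGc, ?_, ?_, ?_⟩
    · intro x hx y z w
      have h1 : ∀ k y, skF A B (φ k) x y = 0 := fun k y => (skF_cross hAB (φ k)).perp x hx y
      have h2 : ∀ k y, syF A B (φ k) x y = 0 := fun k y => (syF_cross hAB (φ k)).perp x hx y
      simp only [hF.lives x hx y z w, hG, skewCurv, knSq, h1, h2]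
      simp
    · intro a ha a' ha' x y
      have h1 : ∀ k, skewCurv (skF A B (φ k)) a a' x y - knSq (syF A B (φ k)) a a' x y = 0 := by
        intro k
        simp only [skewCurv, knSq, skF, syF, pB_A hAB ha, pB_A hAB ha', map_zero]
        ring
      simp only [hF.aa a ha a' ha' x y, hG]
      rw [← sum_sub_distrib, sum_eq_zero fun k _ => h1 k]
      simp
    · intro b hb b' hb' x y
      have h1 : ∀ k, skewCurv (skF A B (φ k)) b b' x y - knSq (syF A B (φ k)) b b' x y = 0 := by
        intro k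
        simp only [skewCurv, knSq, skF, syF, pA_B hAB hb, pA_B hAB hb', map_zero,
          LinearMap.zero_apply]
        ring
      simp only [hF.bb b hb b' hb' x y, hG]
      rw [← sum_sub_distrib, sum_eq_zero fun k _ => h1 k]
      simp
  intro x y z w
  have key := pair_unique hp ?_ x y z w
  · rw [sub_eq_zero] at key
    rw [key, hG]
  · intro a ha b hb
    have h1 := h a ha b hb
    have h2 : G a b a b = - ∑ k, φ k a b ^ 2 := by
      rw [hG]
      simp only
      rw [← sum_sub_distrib]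
      congr 1
      refine sum_congr rfl fun k _ => ?_
      simp only [skewCurv, knSq, skF, syF, pA_B hAB hb, pB_A hAB ha, proj_id ha, proj_id hb,
        map_zero, LinearMap.zero_apply]
      ring
    simp only [h2]
    linarith

end sos

end Pool.Agent.T9h14.QD
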