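import Pool.Agent.T9h14.QD.Align
import Pool.Agent.R770.NS.Main

/-!
# Pairs of blocks with tensors of cross forms
-/

set_option autoImplicit false

namespace Pool.Agent.T9h14.QD

open Pool.Agent.W666.GB Pool.Agent.W669.HD Pool.Agent.T9h14.BQ Finset
open Pool.Agent.Y519.HB (HopfOn sqDec Cu cu_cp ev4 EE Pur pul cu_pul her_of_hopf sub_curv
  sum_curv sq_curv EE_reindex)
open Pool.Agent.Y195.HF (SkewForm skewCurv scR)
open Pool.Agent.R770.NS (SymForm knSq)

section defs

variable {V : Type} [NormedAddCommGroup V] [InnerProductSpace ℝ V]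

/-- The form `h` pairs `A` with `B`: it vanishes on `A × A`, on `B × B`, and if its first argument
is orthogonal to `A` and to `B`. -/
structure CrossForm (A B : Submodule ℝ V) (h : V → V → ℝ) : Prop where
  aa : ∀ x ∈ A, ∀ y ∈ A, h x y = 0
  bb : ∀ x ∈ B, ∀ y ∈ B, h x y = 0
  perp : ∀ x ∈ (A ⊔ B)ᗮ, ∀ y, h x y = 0

/-- `-F = ∑ skewCurv a_k - ∑ knSq h_l` for skew forms `a_k` and symmetric forms `h_l`, in any
number, all of which pair `A` with `B`. -/
def QuatPair (A B : Submodule ℝ V) (F : V → V → V → V → ℝ) : Prop :=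
  ∃ (p q : ℕ) (a : Fin p → V → V → ℝ) (h : Fin q → V → V → ℝ),
    (∀ k, SkewForm (a k) ∧ CrossForm A B (a k)) ∧ (∀ l, SymForm (h l) ∧ CrossForm A B (h l)) ∧
    ∀ x y z w, F x y z w = -((∑ k, skewCurv (a k) x y z w) - ∑ l, knSq (h l) x y z w)

/-- The space is the orthogonal sum of blocks `U i` and of pairs of blocks `A j`, `B j`; `R` is the
sum of curvature tensors `S i` living on `U i` with the Hopf sign on all even-dimensional subspaces
of `U i`, and of tensors `F j` with `QuatPair (A j) (B j) (F j)`, minus squares `(x ∧ y)²` with `x`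
in one of the blocks and `y` in one of the blocks, minus `δ` times the unit tensor. -/
def QuatBlocks (δ : ℝ) (R : V → V → V → V → ℝ) : Prop :=
  ∃ (r s : ℕ) (U : Fin r → Submodule ℝ V) (A B : Fin s → Submodule ℝ V)
    (S : Fin r → V → V → V → V → ℝ) (F : Fin s → V → V → V → V → ℝ) (n : ℕ)
    (x y : Fin n → V) (p q : Fin n → Fin r ⊕ (Fin s ⊕ Fin s)),
    OrthSumI (Sum.elim U (Sum.elim A B)) ∧
    (∀ i, AlgCurv (S i) ∧ LivesOn (U i) (S i) ∧ HopfOn (U i) (S i)) ∧
    (∀ j, QuatPair (A j) (B j) (F j)) ∧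
    (∀ k, x k ∈ Sum.elim U (Sum.elim A B) (p k)) ∧ (∀ k, y k ∈ Sum.elim U (Sum.elim A B) (q k)) ∧
    ∀ a b c d, R a b c d = ((∑ i, S i a b c d) + ∑ j, F j a b c d) -
      (∑ k, sqDec (x k) (y k) a b c d) - δ * unitT a b c d

end defs

section point

variable {V : Type} [NormedAddCommGroup V] [InnerProductSpace ℝ V]

lemma cross_curv {p q : ℕ} {a : Fin p → V → V → ℝ} {h : Fin q → V → V → ℝ}
    (ha : ∀ k, SkewForm (a k)) (hh : ∀ l, SymForm (h l)) :
    AlgCurv (fun x y z w => -((∑ k, skewCurv (a k) x y z w) - ∑ l, knSq (h l) x y z w)) := by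
  have h1 := sub_curv (sum_curv fun l => (hh l).curv) (sum_curv fun k => (ha k).curv)
  have h2 : (fun x y z w => -((∑ k, skewCurv (a k) x y z w) - ∑ l, knSq (h l) x y z w)) =
      fun x y z w => (∑ l, knSq (h l) x y z w) - ∑ k, skewCurv (a k) x y z w := by
    funext x y z w
    ring
  rw [h2]
  exact h1

lemma quat_curv {A B : Submodule ℝ V} {F : V → V → V → V → ℝ} (hF : QuatPair A B F) :
    AlgCurv F := by
  obtain ⟨p, q, a, h, ha, hh, hFe⟩ := hF
  have h1 := cross_curv (fun k => (ha k).1) (fun l => (hh l).1)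
  have h2 : F = fun x y z w => -((∑ k, skewCurv (a k) x y z w) - ∑ l, knSq (h l) x y z w) := by
    funext x y z w
    exact hFe x y z w
  rw [h2]
  exact h1

lemma quat_zero {A B : Submodule ℝ V} {F : V → V → V → V → ℝ} (hF : QuatPair A B F) {x : V}
    (hx : x ∈ (A ⊔ B)ᗮ) (y z w : V) : F x y z w = 0 := by
  obtain ⟨p, q, a, h, ha, hh, hFe⟩ := hF
  have h1 : ∀ k y, a k x y = 0 := fun k y => (ha k).2.perp x hx y
  have h2 : ∀ l y, h l x y = 0 := fun l y => (hh l).2.perp x hx y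
  rw [hFe]
  simp only [skewCurv, knSq, h1, h2]
  simp

/-- the entries of a form which pairs two blocks -/
lemma cross_entry {ι : Type} {U : ι → Submodule ℝ V} {α β : ι} {h : V → V → ℝ}
    (hU : ∀ i j, i ≠ j → ∀ x ∈ U i, ∀ y ∈ U j, inner ℝ x y = 0)
    (hc : CrossForm (U α) (U β) h) (hs : ∀ x y, h y x = h x y ∨ h y x = - h x y) {i j : ι}
    {x y : V} (hx : x ∈ U i) (hy : y ∈ U j) (hne : h x y ≠ 0) :
    (i = α ∧ j = β) ∨ (i = β ∧ j = α) := by
  have hperp : ∀ i, i ≠ α → i ≠ β → ∀ x ∈ U i, x ∈ (U α ⊔ U β)ᗮ := by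
    intro i h1 h2 x hx
    rw [Submodule.mem_orthogonal]
    intro u hu
    obtain ⟨v, hv, w, hw, rfl⟩ := Submodule.mem_sup.1 hu
    rw [inner_add_left, hU α i (Ne.symm h1) v hv x hx, hU β i (Ne.symm h2) w hw x hx, add_zero]
  have hne' : h y x ≠ 0 := by
    rcases hs x y with h1 | h1
    · rw [h1]; exact hne
    · rw [h1]; exact neg_ne_zero.2 hne
  have hi : i = α ∨ i = β := by
    by_contra hcon
    push Not at hcon
    exact hne (hc.perp x (hperp i hcon.1 hcon.2 x hx) y)
  have hj : j = α ∨ j = β := by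
    by_contra hcon
    push Not at hcon
    exact hne' (hc.perp y (hperp j hcon.1 hcon.2 y hy) x)
  rcases hi with rfl | rfl <;> rcases hj with rfl | rfl
  · exact absurd (hc.aa x hx y hy) hne
  · exact Or.inl ⟨rfl, rfl⟩
  · exact Or.inr ⟨rfl, rfl⟩
  · exact absurd (hc.bb x hx y hy) hne

/-- the components of the tensor of cross forms -/
lemma pairC_cp {m : ℕ} {ι : Type} (e : OrthonormalBasis (Fin m × Bool) ℝ V)
    {U : ι → Submodule ℝ V} {col : Fin m × Bool → ι} (hcol : ∀ j, e j ∈ U (col j))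
    (hU : ∀ i j, i ≠ j → ∀ x ∈ U i, ∀ y ∈ U j, inner ℝ x y = 0) {α β : ι}
    {F : V → V → V → V → ℝ} (hF : QuatPair (U α) (U β) F) :
    PairC col α β (cp e (negT F)) := by
  obtain ⟨p, q, a, h, ha, hh, hFe⟩ := hF
  intro i j k l hne
  have ka : ∀ t {i j}, a t (e i) (e j) ≠ 0 → Cr col α β i j := fun t {i j} hne =>
    cross_entry hU (ha t).2 (fun x y => Or.inr ((ha t).1.anti x y)) (hcol i) (hcol j) hne
  have kh : ∀ t {i j}, h t (e i) (e j) ≠ 0 → Cr col α β i j := fun t {i j} hne =>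
    cross_entry hU (hh t).2 (fun x y => Or.inl ((hh t).1.symm x y)) (hcol i) (hcol j) hne
  simp only [cp, negT, hFe, neg_neg] at hne
  by_contra hcon
  push Not at hcon
  obtain ⟨c1, c2, c3⟩ := hcon
  apply hne
  have e1 : ∀ t, skewCurv (a t) (e i) (e j) (e k) (e l) = 0 := by
    intro t
    have z1 : a t (e i) (e j) * a t (e k) (e l) = 0 := by
      by_contra hz
      exact c1 (ka t (left_ne_zero_of_mul hz)) (ka t (right_ne_zero_of_mul hz))
    have z2 : a t (e i) (e k) * a t (e j) (e l) = 0 := by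
      by_contra hz
      exact c2 (ka t (left_ne_zero_of_mul hz)) (ka t (right_ne_zero_of_mul hz))
    have z3 : a t (e i) (e l) * a t (e j) (e k) = 0 := by
      by_contra hz
      exact c3 (ka t (left_ne_zero_of_mul hz)) (ka t (right_ne_zero_of_mul hz))
    unfold skewCurv
    rw [z1, z2, z3]
    ring
  have e2 : ∀ t, knSq (h t) (e i) (e j) (e k) (e l) = 0 := by
    intro t
    have z2 : h t (e i) (e k) * h t (e j) (e l) = 0 := by
      by_contra hz
      exact c2 (kh t (left_ne_zero_of_mul hz)) (kh t (right_ne_zero_of_mul hz))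
    have z3 : h t (e i) (e l) * h t (e j) (e k) = 0 := by
      by_contra hz
      exact c3 (kh t (left_ne_zero_of_mul hz)) (kh t (right_ne_zero_of_mul hz))
    unfold knSq
    rw [z2, z3]
    ring
  simp [e1, e2]

/-- **Pairs of blocks.** -/
theorem herP_quat {m : ℕ} {ι : Type} (e : OrthonormalBasis (Fin m × Bool) ℝ V)
    {U : ι → Submodule ℝ V} {col : Fin m × Bool → ι} (hcol : ∀ j, e j ∈ U (col j))
    (hU : ∀ i j, i ≠ j → ∀ x ∈ U i, ∀ y ∈ U j, inner ℝ x y = 0) {α β : ι} (hne : α ≠ β)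
    {F : V → V → V → V → ℝ} (hF : QuatPair (U α) (U β) F) :
    HerP col (cp e (negT F)) := by
  classical
  have hcurv := quat_curv hF
  intro T _ _ y hy
  refine alignC hne (pairC_cp e hcol hU hF) y hy ?_
  clear hy y
  intro y ha hb
  obtain ⟨n, hn⟩ : ∃ n, n = Fintype.card T := ⟨_, rfl⟩
  obtain ⟨θ⟩ : Nonempty (Fin n ≃ T) := by
    rw [← Fintype.card_eq, Fintype.card_fin, hn]
  rw [← EE_reindex θ (fun _ : T => cp e (negT F)) y]
  obtain ⟨z, hz⟩ : ∃ z : Fin n × Bool → Fin m × Bool → ℝ, z = fun q => y (θ q.1, q.2) := ⟨_, rfl⟩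
  rw [← hz]
  have za : ∀ b, Sup col α (z (b, false)) := fun b => by rw [hz]; exact ha _
  have zb : ∀ b, Sup col β (z (b, true)) := fun b => by rw [hz]; exact hb _
  obtain ⟨p, q, a, h, hha, hhh, hFe⟩ := hF
  obtain ⟨Y, hY⟩ : ∃ Y : Fin n × Bool → V, Y = fun q => ∑ j, z q j • e j := ⟨_, rfl⟩
  have Ya : ∀ b, Y (b, false) ∈ U α := fun b => by rw [hY]; exact vec_mem e hcol (za b)
  have Yb : ∀ b, Y (b, true) ∈ U β := fun b => by rw [hY]; exact vec_mem e hcol (zb b)
  have hcross : ∀ {f : V → V → ℝ}, CrossForm (U α) (U β) f → Cross (fun x y => f (Y x) (Y y)) := by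
    rintro f hf ⟨i, s⟩ ⟨j, t⟩ hst
    simp only at hst
    subst hst
    cases s
    · exact hf.aa _ (Ya i) _ (Ya j)
    · exact hf.bb _ (Yb i) _ (Yb j)
  have key := gm_cross (n := n) (fun k x y => a k (Y x) (Y y)) (fun l x y => h l (Y x) (Y y))
    (fun k => hcross (hha k).2) (fun l => hcross (hhh l).2) (fun k x y => (hha k).1.anti _ _)
    (fun l x y => (hhh l).1.symm _ _)
  refine key.trans (le_of_eq ?_)
  unfold Pool.Agent.Y519.HB.EE gm
  refine sum_congr rfl fun σ _ => sum_congr rfl fun τ _ => ?_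
  congr 1
  refine prod_congr rfl fun b _ => ?_
  rw [ev_cp e hcurv, hFe, neg_neg, hY, sub_eq_add_neg, ← sum_neg_distrib]
  rfl

theorem qb_curv {δ : ℝ} {R : V → V → V → V → ℝ} (h : QuatBlocks δ R) : AlgCurv R := by
  obtain ⟨r, s, U, A, B, S, F, n, x, y, p, q, hO, hS, hF, hx, hy, hR⟩ := h
  have h0 : AlgCurv (fun a b c d => (∑ i, S i a b c d) + ∑ j, F j a b c d) :=
    add_curv (sum_curv fun i => (hS i).1) (sum_curv fun j => quat_curv (hF j))
  have h1 := sub_curv (sub_curv h0 (sum_curv fun k => sq_curv (x k) (y k)))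
    (unit_curv (V := V) δ)
  have h2 : R = fun a b c d => (((∑ i, S i a b c d) + ∑ j, F j a b c d) -
      ∑ k, sqDec (x k) (y k) a b c d) - δ * unitT a b c d := by
    funext a b c d
    exact hR a b c d
  rw [h2]
  exact h1

/-- **The pointwise theorem.** -/
theorem qb_bound {m : ℕ} (e : OrthonormalBasis (Fin m × Bool) ℝ V) {δ : ℝ} (hδ : 0 ≤ δ)
    {R : V → V → V → V → ℝ} (h : QuatBlocks δ R) :
    roundGB m δ ≤ (-1) ^ m * gbc e R := by
  have hRc := qb_curv h
  obtain ⟨r, s, U, A, B, S, F, n, x, y, p, q, hO, hS, hF, hx, hy, hR⟩ := h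
  obtain ⟨W, hW⟩ : ∃ W, W = Sum.elim U (Sum.elim A B) := ⟨_, rfl⟩
  rw [← hW] at hO hx hy
  have wU : ∀ i, W (Sum.inl i) = U i := fun i => by rw [hW]; rfl
  have wA : ∀ j, W (Sum.inr (Sum.inl j)) = A j := fun j => by rw [hW]; rfl
  have wB : ∀ j, W (Sum.inr (Sum.inr j)) = B j := fun j => by rw [hW]; rfl
  refine group_bound e hδ grp (S := Sum.elim S F) (x := x) (y := y) (p := p) (q := q) hO ?_ ?_ ?_
    hx hy hRc ?_
  · rintro (i | j)
    · exact (hS i).1
    · exact quat_curv (hF j)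
  · rintro (i | j) k hk z hz a b c
    · have hne : Sum.inl i ≠ k := by
        rintro rfl
        exact hk rfl
      refine (hS i).2.1 z ?_ a b c
      rw [Submodule.mem_orthogonal]
      intro u hu
      rw [← wU] at hu
      exact hO.1 _ _ hne u hu z hz
    · have hne1 : Sum.inr (Sum.inl j) ≠ k := by
        rintro rfl
        exact hk rfl
      have hne2 : Sum.inr (Sum.inr j) ≠ k := by
        rintro rfl
        exact hk rfl
      refine quat_zero (hF j) ?_ a b c
      rw [Submodule.mem_orthogonal]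
      intro u hu
      obtain ⟨v, hv, w, hw, rfl⟩ := Submodule.mem_sup.1 hu
      rw [← wA] at hv
      rw [← wB] at hw
      rw [inner_add_left, hO.1 _ _ hne1 v hv z hz, hO.1 _ _ hne2 w hw z hz, add_zero]
  · rintro (i | j) e' col hcol
    · exact herP_of_her col (her_of_hopf e' (hS i).1 (hS i).2.1 (hS i).2.2)
    · have hP' : QuatPair (W (Sum.inr (Sum.inl j))) (W (Sum.inr (Sum.inr j))) (F j) := by
        rw [wA, wB]
        exact hF j
      exact herP_quat e' hcol hO.1 (by simp) hP'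
  · intro a b c d
    rw [hR, Fintype.sum_sum_type]
    rfl

end point

/-- Integrated form. -/
theorem field_qb {m : ℕ} {M : Type} [MeasurableSpace M] (μ : MeasureTheory.Measure M)
    (K : CurvField m M) (δ : M → ℝ) (h : ∀ p, 0 ≤ δ p ∧ QuatBlocks (δ p) (K.R p)) :
    0 ≤ (-1) ^ m * ∫ p, K.gb p ∂μ ∧
      (MeasureTheory.Integrable K.gb μ →
        MeasureTheory.Integrable (fun p => roundGB m (δ p)) μ →
        ∫ p, roundGB m (δ p) ∂μ ≤ (-1) ^ m * ∫ p, K.gb p ∂μ) := by
  rw [← MeasureTheory.integral_const_mul]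
  constructor
  · refine MeasureTheory.integral_nonneg fun p => ?_
    exact (roundGB_nonneg (h p).1).trans (qb_bound (K.e p) (h p).1 (h p).2)
  · intro hi hj
    exact MeasureTheory.integral_mono hj (hi.const_mul _) fun p =>
      qb_bound (K.e p) (h p).1 (h p).2

end Pool.Agent.T9h14.QD
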